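import Pool.Agent.Lib.MP_2d002d_gt.PM.H72.Tri

set_option autoImplicit false

/-!
The mass of the pairs which are close in all coordinates: upper bound.
-/

open MeasureTheory Set Filter
open scoped ENNReal NNReal

namespace Pool.Agent.Lib.MP_2d002d_gt.PM.H72

/-- the pairs which are far from each other in the coordinate `i` -/
def farPairs {ι : Type*} (d : ι → ℝ) (i : ι) : Set ((ι → ℝ) × (ι → ℝ)) :=
  {p | 2 * d i < |p.1 i - p.2 i|}

lemma measurableSet_farPairs {ι : Type*} (d : ι → ℝ) (i : ι) : MeasurableSet (farPairs d i) :=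
  measurableSet_lt measurable_const
    (((measurable_pi_apply i).comp measurable_fst).sub
      ((measurable_pi_apply i).comp measurable_snd)).abs

/-- Bonferroni -/
lemma bonferroni {ι : Type*} [Fintype ι] [DecidableEq ι] (d : ι → ℝ)
    (G : (ι → ℝ) × (ι → ℝ) → ℝ≥0∞) (p : (ι → ℝ) × (ι → ℝ)) :
    (closePairs d).indicator G p + ∑ i, (farPairs d i).indicator G p ≤
      G p + ∑ i, ∑ l ∈ Finset.univ.erase i, (farPairs d i ∩ farPairs d l).indicator G p := by
  classical
  set I : Finset ι := Finset.univ.filter fun i => p ∈ farPairs d i with hI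
  have e1 : ∑ i, (farPairs d i).indicator G p = (I.card : ℝ≥0∞) * G p := by
    have : ∀ i, (farPairs d i).indicator G p = if p ∈ farPairs d i then G p else 0 := fun i => by
      rw [Set.indicator_apply]
    simp_rw [this]
    rw [← Finset.sum_filter, Finset.sum_const, nsmul_eq_mul]
  have e2 : ∑ i, ∑ l ∈ Finset.univ.erase i, (farPairs d i ∩ farPairs d l).indicator G p =
      ((I.card * (I.card - 1) : ℕ) : ℝ≥0∞) * G p := by
    have h1 : ∀ i, ∑ l ∈ Finset.univ.erase i, (farPairs d i ∩ farPairs d l).indicator G p =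
        if p ∈ farPairs d i then ((I.card - 1 : ℕ) : ℝ≥0∞) * G p else 0 := by
      intro i
      by_cases hi : p ∈ farPairs d i
      · rw [if_pos hi]
        have h2 : ∀ l, (farPairs d i ∩ farPairs d l).indicator G p =
            if p ∈ farPairs d l then G p else 0 := fun l => by
          by_cases hl : p ∈ farPairs d l
          · rw [if_pos hl, indicator_of_mem (show p ∈ farPairs d i ∩ farPairs d l from ⟨hi, hl⟩)]
          · rw [if_neg hl, indicator_of_notMem fun h => hl h.2]
        simp_rw [h2]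
        rw [← Finset.sum_filter, Finset.sum_const, nsmul_eq_mul]
        congr 2
        rw [Finset.filter_erase, Finset.card_erase_of_mem]
        simpa [hI] using hi
      · rw [if_neg hi]
        refine Finset.sum_eq_zero fun l _ => indicator_of_notMem (fun h => hi h.1) _
    simp_rw [h1]
    rw [← Finset.sum_filter, Finset.sum_const, nsmul_eq_mul, ← mul_assoc]
    push_cast
    rfl
  rw [e1, e2]
  rcases Nat.eq_zero_or_pos I.card with h0 | h0
  · rw [h0]
    simp only [Nat.cast_zero, zero_mul, add_zero]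
    exact indicator_le_self' (fun _ _ => bot_le) p
  · have hcl : p ∉ closePairs d := by
      intro hc
      obtain ⟨i, hi⟩ := Finset.card_pos.1 h0
      have h1 : 2 * d i < |p.1 i - p.2 i| := (Finset.mem_filter.1 hi).2
      exact absurd (hc i) (not_le.2 h1)
    rw [indicator_of_notMem hcl, zero_add]
    have h2 : I.card ≤ 1 + I.card * (I.card - 1) := by
      obtain ⟨c, hc⟩ : ∃ c, I.card = c + 1 := ⟨I.card - 1, by omega⟩
      rw [hc]
      simp only [Nat.add_sub_cancel]
      nlinarith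
    calc (I.card : ℝ≥0∞) * G p ≤ ((1 + I.card * (I.card - 1) : ℕ) : ℝ≥0∞) * G p :=
          mul_le_mul_left (by exact_mod_cast h2) _
      _ = _ := by push_cast; ring

/-- the part of the box near the walls `i` and `l` -/
def nearWalls {ι : Type*} (W d : ι → ℝ) (i l : ι) : Set (ι → ℝ) :=
  {x | (∀ j, |x j| ≤ W j) ∧ 2 * d i - W i ≤ |x i| ∧ 2 * d l - W l ≤ |x l|}

lemma volume_nearWalls {ι : Type*} [Fintype ι] [DecidableEq ι] {W d : ι → ℝ} {R : ℝ}
    (hR : 1 / 2 ≤ R) (hW : ∀ j, W j ≤ R) (hd : ∀ j, d j ≤ W j) {i l : ι} (hil : i ≠ l) :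
    volume (nearWalls W d i l) ≤ ENNReal.ofReal
      (4 * (W i - d i) * (4 * (W l - d l)) * (2 * R) ^ Fintype.card ι) := by
  classical
  set A : ι → Set ℝ := fun j => if j = i then Icc (-W i) (W i - 2 * d i) ∪ Icc (2 * d i - W i) (W i)
    else if j = l then Icc (-W l) (W l - 2 * d l) ∪ Icc (2 * d l - W l) (W l)
    else Icc (-W j) (W j) with hA
  have hsub : nearWalls W d i l ⊆ Set.pi univ A := by
    rintro x ⟨h1, h2, h3⟩ j _
    have aux : ∀ m, |x m| ≤ W m → 2 * d m - W m ≤ |x m| →
        x m ∈ Icc (-W m) (W m - 2 * d m) ∪ Icc (2 * d m - W m) (W m) := by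
      intro m h4 h5
      rcases abs_cases (x m) with ⟨h6, h7⟩ | ⟨h6, h7⟩
      · right; exact ⟨by linarith, by linarith⟩
      · left; exact ⟨by linarith, by linarith⟩
    by_cases hj : j = i
    · subst hj
      simp only [hA, if_true]
      exact aux j (h1 j) h2
    · by_cases hj' : j = l
      · subst hj'
        simp only [hA, if_neg hj, if_true]
        exact aux j (h1 j) h3
      · simp only [hA, if_neg hj, if_neg hj']
        exact abs_le.1 (h1 j)
  refine (measure_mono hsub).trans ?_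
  rw [volume_pi_pi]
  set x : ℝ := 4 * (W i - d i) with hx
  set y : ℝ := 4 * (W l - d l) with hy
  have hx0 : 0 ≤ x := by have := hd i; linarith
  have hy0 : 0 ≤ y := by have := hd l; linarith
  have h2R : 1 ≤ 2 * R := by linarith
  have hpt : ∀ j, volume (A j) ≤ ENNReal.ofReal
      ((if j = i then x else 1) * (if j = l then y else 1) * (2 * R)) := by
    intro j
    have aux : ∀ m, volume (Icc (-W m) (W m - 2 * d m) ∪ Icc (2 * d m - W m) (W m)) ≤
        ENNReal.ofReal (4 * (W m - d m)) := by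
      intro m
      refine (measure_union_le _ _).trans ?_
      rw [Real.volume_Icc, Real.volume_Icc, ← ENNReal.ofReal_add (by linarith [hd m])
        (by linarith [hd m])]
      refine ENNReal.ofReal_le_ofReal (by linarith)
    by_cases hj : j = i
    · subst hj
      simp only [hA, if_true, if_neg hil, mul_one]
      refine (aux j).trans (ENNReal.ofReal_le_ofReal ?_)
      rw [← hx]
      nlinarith
    · by_cases hj' : j = l
      · subst hj'
        simp only [hA, if_neg hj, if_true, one_mul]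
        refine (aux j).trans (ENNReal.ofReal_le_ofReal ?_)
        rw [← hy]
        nlinarith
      · simp only [hA, if_neg hj, if_neg hj', one_mul]
        rw [Real.volume_Icc]
        refine ENNReal.ofReal_le_ofReal ?_
        linarith [hW j]
  refine (Finset.prod_le_prod' fun j _ => hpt j).trans ?_
  rw [← ENNReal.ofReal_prod_of_nonneg]
  · refine ENNReal.ofReal_le_ofReal (le_of_eq ?_)
    rw [Finset.prod_mul_distrib, Finset.prod_mul_distrib, Finset.prod_const, Finset.card_univ,
      Finset.prod_ite_eq' Finset.univ i, Finset.prod_ite_eq' Finset.univ l]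
    simp
  · intro j _
    refine mul_nonneg (mul_nonneg ?_ ?_) (by linarith)
    · split_ifs <;> linarith
    · split_ifs <;> linarith

/-- the overlap of two sets of far pairs -/
lemma overlap {ι : Type*} [Fintype ι] [DecidableEq ι] {F : (ι → ℝ) → ℝ≥0∞} (hF : Measurable F)
    {W d : ι → ℝ} {R : ℝ} (hR : 1 / 2 ≤ R) (hW : ∀ j, W j ≤ R) (hd : ∀ j, d j ≤ W j)
    (hF1 : ∀ x, F x ≤ 1) (hsupp : ∀ x, F x ≠ 0 → ∀ j, |x j| ≤ W j) {i l : ι} (hil : i ≠ l) :
    ∫⁻ X, ∫⁻ Y, (farPairs d i ∩ farPairs d l).indicator (fun p => F p.1 * F p.2) (X, Y) ≤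
      ENNReal.ofReal ((4 * (W i - d i) * (4 * (W l - d l)) * (2 * R) ^ Fintype.card ι) ^ 2) := by
  have hm : MeasurableSet (nearWalls W d i l) := by
    have h1 : MeasurableSet {x : ι → ℝ | ∀ j, |x j| ≤ W j} := by
      have : {x : ι → ℝ | ∀ j, |x j| ≤ W j} = ⋂ j, {x | |x j| ≤ W j} := by ext; simp
      rw [this]
      exact MeasurableSet.iInter fun j => measurableSet_le (by fun_prop) measurable_const
    have h2 : ∀ i, MeasurableSet {x : ι → ℝ | 2 * d i - W i ≤ |x i|} := fun i =>
      measurableSet_le measurable_const (by fun_prop)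
    exact h1.inter ((h2 i).inter (h2 l))
  have hpt : ∀ X Y, (farPairs d i ∩ farPairs d l).indicator (fun p => F p.1 * F p.2) (X, Y) ≤
      (nearWalls W d i l).indicator 1 X * (nearWalls W d i l).indicator 1 Y := by
    intro X Y
    by_cases h : (X, Y) ∈ farPairs d i ∩ farPairs d l
    · rw [indicator_of_mem h]
      by_cases h0 : F X * F Y = 0
      · simp only [h0]; exact bot_le
      · have hX : F X ≠ 0 := fun h1 => h0 (by rw [h1, zero_mul])
        have hY : F Y ≠ 0 := fun h1 => h0 (by rw [h1, mul_zero])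
        have bX := hsupp X hX
        have bY := hsupp Y hY
        have hi : 2 * d i < |X i - Y i| := h.1
        have hl : 2 * d l < |X l - Y l| := h.2
        have key : ∀ m, 2 * d m < |X m - Y m| → 2 * d m - W m ≤ |X m| ∧ 2 * d m - W m ≤ |Y m| := by
          intro m hm
          have h1 : |X m - Y m| ≤ |X m| + |Y m| := abs_sub _ _
          constructor
          · linarith [bY m]
          · linarith [bX m]
        rw [indicator_of_mem (show X ∈ nearWalls W d i l from ⟨bX, (key i hi).1, (key l hl).1⟩),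
          indicator_of_mem (show Y ∈ nearWalls W d i l from ⟨bY, (key i hi).2, (key l hl).2⟩)]
        exact mul_le_mul' (hF1 X) (hF1 Y)
    · rw [indicator_of_notMem h]
      exact bot_le
  have hm1 : Measurable ((nearWalls W d i l).indicator (1 : (ι → ℝ) → ℝ≥0∞)) :=
    measurable_one.indicator hm
  calc ∫⁻ X, ∫⁻ Y, (farPairs d i ∩ farPairs d l).indicator (fun p => F p.1 * F p.2) (X, Y)
      ≤ ∫⁻ X, ∫⁻ Y, (nearWalls W d i l).indicator 1 X * (nearWalls W d i l).indicator 1 Y :=
        lintegral_mono fun X => lintegral_mono fun Y => hpt X Y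
    _ = volume (nearWalls W d i l) ^ 2 := by
        simp_rw [lintegral_const_mul _ hm1]
        rw [lintegral_mul_const _ hm1, lintegral_indicator_one hm, pow_two]
    _ ≤ _ := by
        rw [ENNReal.ofReal_pow]
        · exact pow_le_pow_left' (volume_nearWalls hR hW hd hil) 2
        · have h1 := hd i
          have h2 := hd l
          have h3 : 0 ≤ 2 * R := by linarith
          exact mul_nonneg (mul_nonneg (by linarith) (by linarith)) (pow_nonneg h3 _)

/-- Upper bound for the mass of the close pairs (`ENNReal` form). -/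
theorem close_mass {m : ℕ} {F : (Fin (m + 1) → ℝ) → ℝ≥0∞} (hF : Measurable F)
    (heven : ∀ x, F (-x) = F x)
    (hlc : ∀ t : ℝ, 0 < t → t < 1 → ∀ x y, F x ^ (1 - t) * F y ^ t ≤ F ((1 - t) • x + t • y))
    (hF1 : ∀ x, F x ≤ 1) {W d : Fin (m + 1) → ℝ} {R : ℝ} (hR : 1 / 2 ≤ R) (hW : ∀ j, W j ≤ R)
    (hd0 : ∀ j, 0 ≤ d j) (hd : ∀ j, d j ≤ W j) (hsupp : ∀ x, F x ≠ 0 → ∀ j, |x j| ≤ W j) :
    (∫⁻ X, ∫⁻ Y, (closePairs d).indicator (fun p => F p.1 * F p.2) (X, Y)) +
      ∑ i, ENNReal.ofReal (4 * (W i - d i) ^ 2) * marg i F (W i) ^ 2 ≤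
    (∫⁻ X, F X) ^ 2 + ∑ i, ∑ l ∈ Finset.univ.erase i,
      ENNReal.ofReal ((4 * (W i - d i) * (4 * (W l - d l)) * (2 * R) ^ (m + 1)) ^ 2) := by
  classical
  set G : (Fin (m + 1) → ℝ) × (Fin (m + 1) → ℝ) → ℝ≥0∞ := fun p => F p.1 * F p.2 with hG
  have hGm : Measurable G := (hF.comp measurable_fst).mul (hF.comp measurable_snd)
  have eall : (∫⁻ X, F X) ^ 2 = ∫⁻ p, G p := by
    rw [Measure.volume_eq_prod, lintegral_prod _ hGm.aemeasurable, pow_two]
    simp only [hG]
    simp_rw [lintegral_const_mul _ hF]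
    rw [lintegral_mul_const _ hF]
  have epr : ∀ S : Set ((Fin (m + 1) → ℝ) × (Fin (m + 1) → ℝ)), MeasurableSet S →
      ∫⁻ X, ∫⁻ Y, S.indicator G (X, Y) = ∫⁻ p, S.indicator G p := by
    intro S hS
    rw [Measure.volume_eq_prod, lintegral_prod _ (hGm.indicator hS).aemeasurable]
  have hfar : ∀ i, ENNReal.ofReal (4 * (W i - d i) ^ 2) * marg i F (W i) ^ 2 ≤
      ∫⁻ p, (farPairs d i).indicator G p := by
    intro i
    rw [← epr _ (measurableSet_farPairs d i)]
    exact far_mass i hF heven hlc (hd0 i) (hd i)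
  have hov : ∀ i, ∀ l ∈ Finset.univ.erase i, ∫⁻ p, (farPairs d i ∩ farPairs d l).indicator G p ≤
      ENNReal.ofReal ((4 * (W i - d i) * (4 * (W l - d l)) * (2 * R) ^ (m + 1)) ^ 2) := by
    intro i l hl
    rw [← epr _ ((measurableSet_farPairs d i).inter (measurableSet_farPairs d l))]
    have := overlap hF hR hW hd hF1 hsupp (Finset.ne_of_mem_erase hl).symm
    rwa [Fintype.card_fin] at this
  rw [eall, epr _ (measurableSet_closePairs d)]
  have hb := lintegral_mono (μ := volume) (bonferroni d G)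
  rw [lintegral_add_left (hGm.indicator (measurableSet_closePairs d)),
    lintegral_add_left hGm, lintegral_finset_sum _ fun i _ =>
      hGm.indicator (measurableSet_farPairs d i),
    lintegral_finset_sum _ fun i _ => Finset.measurable_sum _ fun l _ =>
      hGm.indicator ((measurableSet_farPairs d i).inter (measurableSet_farPairs d l))] at hb
  refine (add_le_add le_rfl (Finset.sum_le_sum fun i _ => hfar i)).trans (hb.trans ?_)
  refine add_le_add le_rfl (Finset.sum_le_sum fun i _ => ?_)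
  rw [lintegral_finset_sum _ fun l _ =>
      hGm.indicator ((measurableSet_farPairs d i).inter (measurableSet_farPairs d l))]
  exact Finset.sum_le_sum fun l hl => hov i l hl

/-- (D_0) in finite form: doubling at the walls and the corner triangles. -/
theorem d0_finite {m : ℕ} {F Fp Fm : (Fin (m + 1) → ℝ) → ℝ≥0∞} (hF : Measurable F)
    (hFp : Measurable Fp) (hFm : Measurable Fm) (heven : ∀ x, F (-x) = F x)
    (hlc : ∀ t : ℝ, 0 < t → t < 1 → ∀ x y, F x ^ (1 - t) * F y ^ t ≤ F ((1 - t) • x + t • y))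
    (hF1 : ∀ x, F x ≤ 1) {W a b : Fin (m + 1) → ℝ} {R : ℝ} (hR : 1 / 2 ≤ R) (hW : ∀ j, W j ≤ R)
    (hsupp : ∀ x, F x ≠ 0 → ∀ j, |x j| ≤ W j) (ha : ∀ j, 0 ≤ a j) (hb : ∀ j, 0 ≤ b j)
    (hab : ∀ j, min (a j) (b j) ≤ W j) (hp : ∀ x, Fp x ≠ 0 → ∀ i, |x i| ≤ a i)
    (hm : ∀ y, Fm y ≠ 0 → ∀ i, |y i| ≤ b i)
    (h : ∀ x y, Fp x * Fm y ≤ F ((1 / 2 : ℝ) • (x + y)) ^ 2) :
    (∫⁻ x, Fp x) * (∫⁻ y, Fm y) +
      ∑ i, ENNReal.ofReal (4 * (W i - min (a i) (b i)) ^ 2) * marg i F (W i) ^ 2 ≤
    (∫⁻ X, F X) ^ 2 + ∑ i, ∑ l ∈ Finset.univ.erase i,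
      ENNReal.ofReal ((4 * (W i - min (a i) (b i)) * (4 * (W l - min (a l) (b l))) *
        (2 * R) ^ (m + 1)) ^ 2) :=
  (add_le_add (dbl hFp hFm hF a b hp hm h) le_rfl).trans
    (close_mass hF heven hlc hF1 hR hW (fun j => le_min (ha j) (hb j)) hab hsupp)

end Pool.Agent.Lib.MP_2d002d_gt.PM.H72
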