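import Pool.Agent.Lib.MP_2d002d_gt.PM.Interfaces
import Pool.Agent.Lib.MP_2d002d_gt.PM.H72.Close

set_option autoImplicit false

/-!
Module DBL.
-/

open MeasureTheory Set Filter Topology
open scoped ENNReal Pointwise

namespace Pool.Agent.Lib.MP_2d002d_gt.PM.H72

/-- the integrand of `HB` -/
noncomputable def hb {n : ℕ} (U : ℝ × (Fin n → ℝ) → ℝ) (s : ℝ) (W : Fin n → ℝ)
    (x : Fin n → ℝ) : ℝ≥0∞ :=
  if ∀ i, |x i| ≤ W i then ENNReal.ofReal (Real.exp (-U (s, x))) else 0

lemma measurableSet_box {n : ℕ} (W : Fin n → ℝ) :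
    MeasurableSet {x : Fin n → ℝ | ∀ i, |x i| ≤ W i} := by
  have : {x : Fin n → ℝ | ∀ i, |x i| ≤ W i} = ⋂ i, {x | |x i| ≤ W i} := by ext; simp
  rw [this]
  exact MeasurableSet.iInter fun j => measurableSet_le (by fun_prop) measurable_const

lemma measurable_hb {n : ℕ} {U : ℝ × (Fin n → ℝ) → ℝ} (hU : Pot U) (s : ℝ) (W : Fin n → ℝ) :
    Measurable (hb U s W) := by
  have h1 : Continuous fun x : Fin n → ℝ => U (s, x) :=
    hU.smooth.continuous.comp (by fun_prop)
  have h2 : Measurable fun x : Fin n → ℝ => ENNReal.ofReal (Real.exp (-U (s, x))) :=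
    (ENNReal.continuous_ofReal.comp (Real.continuous_exp.comp h1.neg)).measurable
  exact Measurable.ite (measurableSet_box W) h2 measurable_const

lemma hb_ne {n : ℕ} {U : ℝ × (Fin n → ℝ) → ℝ} {s : ℝ} {W x : Fin n → ℝ}
    (h : hb U s W x ≠ 0) : ∀ i, |x i| ≤ W i := by
  by_contra hc
  exact h (if_neg hc)

lemma HB_eq {n : ℕ} (U : ℝ × (Fin n → ℝ) → ℝ) (s : ℝ) (W : Fin n → ℝ) :
    HB U (s, W) = ∫⁻ x, hb U s W x := rfl

lemma hb_le_one {n : ℕ} {U : ℝ × (Fin n → ℝ) → ℝ} (hU : Pot U) (s : ℝ) (W x : Fin n → ℝ) :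
    hb U s W x ≤ 1 := by
  unfold hb
  split_ifs
  · rw [ENNReal.ofReal_le_one, Real.exp_le_one_iff]
    linarith [hU.nonneg (s, x)]
  · exact zero_le

lemma JJ_eq {n : ℕ} (U : ℝ × (Fin n → ℝ) → ℝ) (s : ℝ) (W δ : Fin n → ℝ) :
    JJ U s W δ = ∫⁻ x, ∫⁻ y, (closePairs fun i => W i - δ i).indicator
      (fun p => hb U s W p.1 * hb U s W p.2) (x, y) := by
  unfold JJ
  refine lintegral_congr fun x => lintegral_congr fun y => ?_
  by_cases h : ∀ i, |x i| ≤ W i ∧ |y i| ≤ W i ∧ |x i - y i| ≤ 2 * (W i - δ i)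
  · rw [if_pos h, indicator_of_mem (show (x, y) ∈ closePairs fun i => W i - δ i from
      fun i => (h i).2.2)]
    simp only [hb, if_pos (fun i => (h i).1), if_pos (fun i => (h i).2.1)]
  · rw [if_neg h]
    by_cases hc : (x, y) ∈ closePairs fun i => W i - δ i
    · rw [indicator_of_mem hc]
      by_cases hx : ∀ i, |x i| ≤ W i
      · have hy : ¬ ∀ i, |y i| ≤ W i := fun hy => h fun i => ⟨hx i, hy i, hc i⟩
        simp only [hb, if_neg hy, mul_zero]
      · simp only [hb, if_neg hx, zero_mul]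
    · rw [indicator_of_notMem hc]

theorem dbl_mod : DBL_S := by
  intro n U hU s h W d hd
  have key := dbl (ι := Fin n) (measurable_hb hU (s + h) fun i => W i + d i)
    (measurable_hb hU (s - h) fun i => W i - d i) (measurable_hb hU s W)
    (fun i => W i + d i) (fun i => W i - d i) (fun x hx => hb_ne hx) (fun x hx => hb_ne hx) ?_
  · rw [HB_eq, HB_eq, JJ_eq]
    refine key.trans (le_of_eq ?_)
    have : (fun i => min (W i + d i) (W i - d i)) = fun i => W i - |d i| := by
      funext i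
      rcases abs_cases (d i) with ⟨h1, h2⟩ | ⟨h1, h2⟩
      · rw [h1, min_eq_right (by linarith)]
      · rw [h1, min_eq_left (by linarith)]; ring
    rw [this]
  · intro x y
    by_cases hx : ∀ i, |x i| ≤ W i + d i
    · by_cases hy : ∀ i, |y i| ≤ W i - d i
      · have hm : ∀ i, |((1 / 2 : ℝ) • (x + y)) i| ≤ W i := by
          intro i
          have h1 := abs_le.1 (hx i)
          have h2 := abs_le.1 (hy i)
          simp only [Pi.smul_apply, Pi.add_apply, smul_eq_mul]
          rw [abs_le]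
          constructor <;> linarith
        simp only [hb, if_pos hx, if_pos hy, if_pos hm]
        rw [← ENNReal.ofReal_mul (Real.exp_pos _).le, ← ENNReal.ofReal_pow (Real.exp_pos _).le]
        refine ENNReal.ofReal_le_ofReal ?_
        rw [← Real.exp_add, pow_two, ← Real.exp_add]
        refine Real.exp_le_exp.2 ?_
        have hc := hU.convex.2 (mem_univ (s + h, x)) (mem_univ (s - h, y))
          (show (0 : ℝ) ≤ 1 / 2 by norm_num) (show (0 : ℝ) ≤ 1 / 2 by norm_num) (by norm_num)
        have e : (1 / 2 : ℝ) • (s + h, x) + (1 / 2 : ℝ) • (s - h, y) =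
            (s, (1 / 2 : ℝ) • (x + y)) := by
          ext i
          · simp; ring
          · simp; ring
        rw [e] at hc
        simp only [smul_eq_mul] at hc
        linarith
      · simp only [hb, if_neg hy, mul_zero]
        exact zero_le
    · simp only [hb, if_neg hx, zero_mul]
      exact zero_le

end Pool.Agent.Lib.MP_2d002d_gt.PM.H72
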