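import Pool.Agent.Lib.MP_2d002d_gt.PM.H72.CornMod
import Pool.Agent.Lib.MP_2d002d_gt.PM.H72.DblMod

/-!
# BASE: the box functional belongs to the class `Reg`
-/

set_option autoImplicit false

open MeasureTheory Set Filter Topology
open scoped ENNReal

namespace Pool.Agent.Lib.MP_2d002d_gt.PM.H72

lemma isOpen_Om' (n : ℕ) (α β : ℝ) : IsOpen (Om n α β) := by
  have : Om n α β = {p : ℝ × (Fin n → ℝ) | 0 < α + β * p.1} ∩ ⋂ i, {p | 0 < p.2 i} := by
    ext p; simp [Om]
  rw [this]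
  apply IsOpen.inter
  · exact isOpen_lt continuous_const (by fun_prop)
  · exact isOpen_iInter_of_finite fun i => isOpen_lt continuous_const (by fun_prop)

lemma JJ_le_sq {n : ℕ} {U : ℝ × (Fin n → ℝ) → ℝ} (hU : Pot U) (s : ℝ) (W δ : Fin n → ℝ) :
    JJ U s W δ ≤ (HB U (s, W)) ^ 2 := by
  have hmb : Measurable (hb U s W) := measurable_hb hU s W
  rw [pow_two, HB_eq]
  rw [← lintegral_mul_const _ hmb]
  refine lintegral_mono fun x => ?_
  rw [← lintegral_const_mul _ hmb]
  refine lintegral_mono fun y => ?_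
  split_ifs with h
  · simp only [hb, if_pos (fun l => (h l).1), if_pos (fun l => (h l).2.1)]
    exact le_rfl
  · exact zero_le

theorem base (hFIN : FIN_S) (hHEU : HEU_S) (hBC2 : BC2_S) (hDBL : DBL_S) (hCORN : CORN_S)
    (hD2 : D2_S) (hLOGD : LOGD_S) : BASE_S := by
  intro n U S α β hU hS
  have hHR : HR U S α β Finset.univ = fun p => (HB U p).toReal := by
    funext p
    unfold HR
    rw [hHEU]
  have hcd : ContDiffOn ℝ 2 (fun p => (HB U p).toReal) (Om n α β) := hBC2 n U α β hU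
  have hfin : ∀ p ∈ Om n α β, HB U p ≠ ∞ ∧ HB U p ≠ 0 := by
    intro p hp
    have := hFIN n U S α β Finset.univ hU hS p hp
    rwa [hHEU] at this
  have hpos : ∀ p ∈ Om n α β, 0 < (HB U p).toReal := fun p hp =>
    ENNReal.toReal_pos (hfin p hp).2 (hfin p hp).1
  rw [hHR]
  refine ⟨hcd, hpos, ?_⟩
  intro p hp c
  set H : ℝ × (Fin n → ℝ) → ℝ := fun p => (HB U p).toReal with hH
  have hO := isOpen_Om' n α β
  have hat : ∀ q ∈ Om n α β, ContDiffAt ℝ 2 H q := fun q hq => hcd.contDiffAt (hO.mem_nhds hq)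
  have hdiff : ∀ q ∈ Om n α β, DifferentiableAt ℝ H q := fun q hq =>
    (hat q hq).differentiableAt (by norm_num)
  have hfd : ∀ q ∈ Om n α β, DifferentiableAt ℝ (fderiv ℝ H) q := fun q hq =>
    ((hat q hq).fderiv_right (m := 1) (by norm_num)).differentiableAt (by norm_num)
  obtain ⟨-, hlog⟩ := hLOGD n α β H hcd hpos
  obtain ⟨hl1, hl2, -⟩ := hlog p hp
  set v : ℝ × (Fin n → ℝ) := (1, c) with hv
  -- the partial derivatives at the walls
  have hκ : ∀ i, HasDerivAt (fun x => (HB U (p.1, Function.update p.2 i x)).toReal)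
      (fderiv ℝ H p (ew i)) (p.2 i) := by
    intro i
    have h1 : HasDerivAt (fun x : ℝ => ((p.1, Function.update p.2 i x) : ℝ × (Fin n → ℝ)))
        (ew i) (p.2 i) := by
      refine HasDerivAt.prodMk (hasDerivAt_const _ _) ?_
      exact hasDerivAt_update p.2 i (p.2 i)
    have h2 : HasFDerivAt H (fderiv ℝ H p) ((p.1, Function.update p.2 i (p.2 i))) := by
      rw [Function.update_eq_self]
      exact (hdiff p hp).hasFDerivAt
    exact h2.comp_hasDerivAt (p.2 i) h1
  obtain ⟨C, hC0, hC⟩ := hCORN n U hU p.1 p.2 (fun i => fderiv ℝ H p (ew i)) hp.2 hκ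
  -- the segment
  have hline : ∀ h : ℝ, HasDerivAt (fun h : ℝ => p + h • v) v h := by
    intro h
    have := ((hasDerivAt_id h).smul_const v).const_add p
    simpa using this
  obtain ⟨ε, hε, hball⟩ : ∃ ε : ℝ, 0 < ε ∧ ∀ h : ℝ, |h| < ε → p + h • v ∈ Om n α β ∧
      ∀ i, |h * c i| ≤ p.2 i := by
    have hc1 : Continuous fun h : ℝ => p + h • v := by fun_prop
    have h1 : ∀ᶠ h : ℝ in 𝓝 0, p + h • v ∈ Om n α β := by
      apply hc1.continuousAt.eventually_mem
      apply hO.mem_nhds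
      simpa using hp
    have h2 : ∀ᶠ h : ℝ in 𝓝 0, ∀ i, |h * c i| ≤ p.2 i := by
      rw [Filter.eventually_all]
      intro i
      have hc2 : Continuous fun h : ℝ => |h * c i| := by fun_prop
      have h3 : ∀ᶠ h : ℝ in 𝓝 0, |h * c i| < p.2 i := by
        apply hc2.continuousAt.eventually_lt continuousAt_const
        simpa using hp.2 i
      exact h3.mono fun _ hh => hh.le
    obtain ⟨ε, hε, h3⟩ := Metric.eventually_nhds_iff.1 (h1.and h2)
    exact ⟨ε, hε, fun h hh => h3 (by simpa [Real.dist_eq] using hh)⟩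
  have hf1 : ∀ h : ℝ, |h| < ε → HasDerivAt (fun h : ℝ => H (p + h • v))
      (fderiv ℝ H (p + h • v) v) h := by
    intro h hh
    exact (hdiff _ (hball h hh).1).hasFDerivAt.comp_hasDerivAt h (hline h)
  have hf2 : HasDerivAt (fun h : ℝ => fderiv ℝ H (p + h • v) v)
      (fderiv ℝ (fderiv ℝ H) p v v) 0 := by
    have h1 : HasFDerivAt (fderiv ℝ H) (fderiv ℝ (fderiv ℝ H) p) (p + (0 : ℝ) • v) := by
      rw [zero_smul, add_zero]
      exact (hfd p hp).hasFDerivAt
    have h2 := h1.comp_hasDerivAt (0 : ℝ) (hline 0)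
    have h3 := h2.clm_apply (hasDerivAt_const (0 : ℝ) v)
    simpa using h3
  set B : ℝ := ∑ i, (c i * fderiv ℝ H p (ew i)) ^ 2 with hB
  set C' : ℝ := C * ∑ i, ∑ l ∈ Finset.univ.erase i, c i ^ 2 * c l ^ 2 with hC'
  have hdouble : ∀ h : ℝ, 0 < h → h < ε →
      H (p + h • v) * H (p + (-h) • v) ≤ H (p + (0 : ℝ) • v) ^ 2 - B * h ^ 2 + C' * h ^ 4 := by
    intro h h0 h1
    have habs : |h| < ε := by rwa [abs_of_pos h0]
    obtain ⟨-, hW⟩ := hball h habs
    have hd := hDBL n U hU p.1 h p.2 (fun i => h * c i) hW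
    have e1 : ((p.1 + h, fun i => p.2 i + h * c i) : ℝ × (Fin n → ℝ)) = p + h • v := by
      ext <;> simp [hv]
    have e2 : ((p.1 - h, fun i => p.2 i - h * c i) : ℝ × (Fin n → ℝ)) = p + (-h) • v := by
      ext <;> simp [hv] <;> ring
    rw [e1, e2] at hd
    have hJfin : JJ U p.1 p.2 (fun i => |h * c i|) ≠ ∞ :=
      ne_top_of_le_ne_top (ENNReal.pow_ne_top (hfin p hp).1) (JJ_le_sq hU p.1 p.2 _)
    have h2 := ENNReal.toReal_mono hJfin hd
    rw [ENNReal.toReal_mul] at h2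
    have h3 := hC (fun i => |h * c i|) fun i => ⟨abs_nonneg _, hW i⟩
    have e3 : ∑ i, (|h * c i| * fderiv ℝ H p (ew i)) ^ 2 = B * h ^ 2 := by
      rw [hB, Finset.sum_mul]
      refine Finset.sum_congr rfl fun i _ => ?_
      rw [mul_pow, sq_abs]
      ring
    have e4 : C * ∑ i, ∑ l ∈ Finset.univ.erase i, |h * c i| ^ 2 * |h * c l| ^ 2 =
        C' * h ^ 4 := by
      rw [hC', mul_assoc, Finset.sum_mul]
      congr 1
      refine Finset.sum_congr rfl fun i _ => ?_
      rw [Finset.sum_mul]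
      refine Finset.sum_congr rfl fun l _ => ?_
      rw [sq_abs, sq_abs]
      ring
    rw [e3, e4] at h3
    rw [zero_smul, add_zero]
    exact h2.trans h3
  have hkey := hD2 (fun h => H (p + h • v)) (fun h => fderiv ℝ H (p + h • v) v)
    (fderiv ℝ (fderiv ℝ H) p v v) ε B C' hε hf1 hf2 hdouble
  simp only [zero_smul, add_zero] at hkey
  have hHp : 0 < H p := hpos p hp
  rw [hl2 v v]
  have e5 : ∑ l, (c l * fderiv ℝ (fun q => Real.log (H q)) p (ew l)) ^ 2 = B / H p ^ 2 := by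
    rw [hB, Finset.sum_div]
    refine Finset.sum_congr rfl fun l _ => ?_
    rw [hl1 (ew l)]
    rw [← mul_div_assoc, div_pow]
  rw [e5]
  have e6 : fderiv ℝ (fderiv ℝ H) p v v / H p - fderiv ℝ H p v * fderiv ℝ H p v / H p ^ 2 =
      (H p * fderiv ℝ (fderiv ℝ H) p v v - fderiv ℝ H p v ^ 2) / H p ^ 2 := by
    field_simp
  rw [e6, ← neg_div]
  exact div_le_div_of_nonneg_right hkey (sq_nonneg _)

end Pool.Agent.Lib.MP_2d002d_gt.PM.H72
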