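import Pool.Agent.Lib.MP_2d002d_gt.PM.H72.DblMod

set_option autoImplicit false

/-!
Modules CORNA, CORNB, CORN.
-/

open MeasureTheory Set Filter Topology
open scoped ENNReal Pointwise

namespace Pool.Agent.Lib.MP_2d002d_gt.PM.H72

/-! ### CORNB -/

theorem cornb : CORNB_S := by
  intro n W hW
  set R : ℝ := 1 + ∑ i, W i with hR
  have hWR : ∀ j, W j ≤ R := by
    intro j
    have h1 : W j ≤ ∑ i, W i := Finset.single_le_sum (fun i _ => (hW i).le) (Finset.mem_univ j)
    linarith
  have hR1 : 1 ≤ R := by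
    have : 0 ≤ ∑ i, W i := Finset.sum_nonneg fun i _ => (hW i).le
    linarith
  refine ⟨256 * ((2 * R) ^ n) ^ 2, by positivity, ?_⟩
  intro i l hil δ δ' hδ hδW hδ' hδ'W
  set d : Fin n → ℝ := Function.update (Function.update W i (W i - δ)) l (W l - δ') with hd
  have hdi : d i = W i - δ := by
    rw [hd, Function.update_of_ne hil, Function.update_self]
  have hdl : d l = W l - δ' := by rw [hd, Function.update_self]
  have hdj : ∀ j, d j ≤ W j := by
    intro j
    by_cases h1 : j = l
    · subst h1; rw [hdl]; linarith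
    · by_cases h2 : j = i
      · subst h2; rw [hdi]; linarith
      · rw [hd, Function.update_of_ne h1, Function.update_of_ne h2]
  have hmF : Measurable ({x : Fin n → ℝ | ∀ j, |x j| ≤ W j}.indicator
      (1 : (Fin n → ℝ) → ℝ≥0∞)) := measurable_one.indicator (measurableSet_box W)
  have key := overlap (F := {x : Fin n → ℝ | ∀ j, |x j| ≤ W j}.indicator 1) hmF (d := d)
    (show (1 / 2 : ℝ) ≤ R by linarith) hWR hdj
    (fun x => indicator_le_self' (fun _ _ => zero_le) x) (fun x hx => by
      by_contra hc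
      exact hx (indicator_of_notMem
        (show x ∉ {x : Fin n → ℝ | ∀ j, |x j| ≤ W j} from hc) _)) hil
  have e1 : ENNReal.ofReal ((4 * (W i - d i) * (4 * (W l - d l)) *
      (2 * R) ^ Fintype.card (Fin n)) ^ 2) =
      ENNReal.ofReal (256 * ((2 * R) ^ n) ^ 2 * δ ^ 2 * δ' ^ 2) := by
    rw [hdi, hdl, Fintype.card_fin]
    congr 1
    ring
  rw [e1] at key
  refine le_trans (le_of_eq ?_) key
  refine lintegral_congr fun x => lintegral_congr fun y => ?_
  by_cases h : (∀ m, |x m| ≤ W m ∧ |y m| ≤ W m) ∧ 2 * (W i - δ) < |x i - y i| ∧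
      2 * (W l - δ') < |x l - y l|
  · rw [if_pos h, indicator_of_mem]
    · have hx : x ∈ {x : Fin n → ℝ | ∀ j, |x j| ≤ W j} := fun j => (h.1 j).1
      have hy : y ∈ {x : Fin n → ℝ | ∀ j, |x j| ≤ W j} := fun j => (h.1 j).2
      simp only [indicator_of_mem hx, indicator_of_mem hy, Pi.one_apply, mul_one]
    · constructor
      · change 2 * d i < |x i - y i|
        rw [hdi]; exact h.2.1
      · change 2 * d l < |x l - y l|
        rw [hdl]; exact h.2.2
  · rw [if_neg h]
    by_cases hf : (x, y) ∈ farPairs d i ∩ farPairs d l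
    · rw [indicator_of_mem hf]
      by_cases hx : x ∈ {x : Fin n → ℝ | ∀ j, |x j| ≤ W j}
      · by_cases hy : y ∈ {x : Fin n → ℝ | ∀ j, |x j| ≤ W j}
        · exfalso
          apply h
          have h1 : 2 * d i < |x i - y i| := hf.1
          have h2 : 2 * d l < |x l - y l| := hf.2
          rw [hdi] at h1
          rw [hdl] at h2
          exact ⟨fun m => ⟨hx m, hy m⟩, h1, h2⟩
        · simp only [indicator_of_notMem hy, mul_zero]
      · simp only [indicator_of_notMem hx, zero_mul]
    · rw [indicator_of_notMem hf]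

/-! ### CORNA -/

/-- a right difference quotient bounds the derivative -/
lemma deriv_le_of_right {f : ℝ → ℝ} {f' a c : ℝ} (hf : HasDerivAt f f' a)
    (h : ∀ ε, 0 < ε → f (a + ε) ≤ f a + ε * c) : f' ≤ c := by
  have h1 := hf.tendsto_slope_zero_right
  refine le_of_tendsto h1 (eventually_nhdsWithin_of_forall fun ε hε => ?_)
  have hε' : (0 : ℝ) < ε := hε
  have h2 := h ε hε'
  rw [smul_eq_mul, inv_mul_le_iff₀ hε']
  linarith

lemma le_deriv_of_right {f : ℝ → ℝ} {f' a c : ℝ} (hf : HasDerivAt f f' a)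
    (h : ∀ ε, 0 < ε → f a + ε * c ≤ f (a + ε)) : c ≤ f' := by
  have h1 := hf.tendsto_slope_zero_right
  refine ge_of_tendsto h1 (eventually_nhdsWithin_of_forall fun ε hε => ?_)
  have hε' : (0 : ℝ) < ε := hε
  have h2 := h ε hε'
  rw [smul_eq_mul, le_inv_mul_iff₀ hε']
  linarith

/-- the integrand without the wall `i` -/
noncomputable def hw {m : ℕ} (U : ℝ × (Fin (m + 1) → ℝ) → ℝ) (s : ℝ) (W : Fin (m + 1) → ℝ)
    (i : Fin (m + 1)) (x : Fin (m + 1) → ℝ) : ℝ≥0∞ :=
  if ∀ l, l ≠ i → |x l| ≤ W l then ENNReal.ofReal (Real.exp (-U (s, x))) else 0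

lemma measurable_hw {m : ℕ} {U : ℝ × (Fin (m + 1) → ℝ) → ℝ} (hU : Pot U) (s : ℝ)
    (W : Fin (m + 1) → ℝ) (i : Fin (m + 1)) : Measurable (hw U s W i) := by
  have h1 : Continuous fun x : Fin (m + 1) → ℝ => U (s, x) :=
    hU.smooth.continuous.comp (by fun_prop)
  have h2 : Measurable fun x : Fin (m + 1) → ℝ => ENNReal.ofReal (Real.exp (-U (s, x))) :=
    (ENNReal.continuous_ofReal.comp (Real.continuous_exp.comp h1.neg)).measurable
  have h3 : MeasurableSet {x : Fin (m + 1) → ℝ | ∀ l, l ≠ i → |x l| ≤ W l} := by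
    have : {x : Fin (m + 1) → ℝ | ∀ l, l ≠ i → |x l| ≤ W l} =
        ⋂ l, ⋂ (_ : l ≠ i), {x | |x l| ≤ W l} := by ext; simp
    rw [this]
    exact MeasurableSet.iInter fun j => MeasurableSet.iInter fun _ =>
      measurableSet_le (by fun_prop) measurable_const
  exact Measurable.ite h3 h2 measurable_const

lemma hw_even {m : ℕ} {U : ℝ × (Fin (m + 1) → ℝ) → ℝ} (hU : Pot U) (s : ℝ)
    (W : Fin (m + 1) → ℝ) (i : Fin (m + 1)) (x : Fin (m + 1) → ℝ) :
    hw U s W i (-x) = hw U s W i x := by
  unfold hw
  simp only [Pi.neg_apply, abs_neg, hU.even]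

lemma hw_logc {m : ℕ} {U : ℝ × (Fin (m + 1) → ℝ) → ℝ} (hU : Pot U) (s : ℝ)
    (W : Fin (m + 1) → ℝ) (i : Fin (m + 1)) (t : ℝ) (ht0 : 0 < t) (ht1 : t < 1)
    (x y : Fin (m + 1) → ℝ) :
    hw U s W i x ^ (1 - t) * hw U s W i y ^ t ≤ hw U s W i ((1 - t) • x + t • y) := by
  by_cases hx : ∀ l, l ≠ i → |x l| ≤ W l
  · by_cases hy : ∀ l, l ≠ i → |y l| ≤ W l
    · have hz : ∀ l, l ≠ i → |((1 - t) • x + t • y) l| ≤ W l := by
        intro l hl
        simp only [Pi.add_apply, Pi.smul_apply, smul_eq_mul]
        have h1 := hx l hl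
        have h2 := hy l hl
        have h3 : |(1 - t) * x l + t * y l| ≤ (1 - t) * |x l| + t * |y l| := by
          refine (abs_add_le _ _).trans (le_of_eq ?_)
          rw [abs_mul, abs_mul, abs_of_pos ht0, abs_of_pos (by linarith : 0 < 1 - t)]
        nlinarith
      simp only [hw, if_pos hx, if_pos hy, if_pos hz]
      rw [ENNReal.ofReal_rpow_of_pos (Real.exp_pos _), ENNReal.ofReal_rpow_of_pos (Real.exp_pos _),
        ← ENNReal.ofReal_mul (by positivity), ← Real.exp_mul, ← Real.exp_mul, ← Real.exp_add]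
      refine ENNReal.ofReal_le_ofReal (Real.exp_le_exp.2 ?_)
      have hc := hU.convex.2 (mem_univ (s, x)) (mem_univ (s, y))
        (show 0 ≤ 1 - t by linarith) ht0.le (by ring)
      have e : (1 - t) • (s, x) + t • (s, y) = (s, (1 - t) • x + t • y) := by
        ext j
        · simp; ring
        · simp
      rw [e] at hc
      simp only [smul_eq_mul] at hc
      linarith
    · simp only [hw, if_neg hy]
      rw [ENNReal.zero_rpow_of_pos ht0, mul_zero]
      exact zero_le
  · simp only [hw, if_neg hx]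
    rw [ENNReal.zero_rpow_of_pos (by linarith), zero_mul]
    exact zero_le

lemma hb_update {m : ℕ} (U : ℝ × (Fin (m + 1) → ℝ) → ℝ) (s : ℝ) (W : Fin (m + 1) → ℝ)
    (i : Fin (m + 1)) (c : ℝ) (x : Fin (m + 1) → ℝ) :
    hb U s (Function.update W i c) x = if |x i| ≤ c then hw U s W i x else 0 := by
  unfold hb hw
  by_cases hi : |x i| ≤ c
  · rw [if_pos hi]
    by_cases h : ∀ l, l ≠ i → |x l| ≤ W l
    · rw [if_pos h, if_pos]
      intro l
      by_cases hl : l = i
      · subst hl; rw [Function.update_self]; exact hi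
      · rw [Function.update_of_ne hl]; exact h l hl
    · rw [if_neg h, if_neg]
      intro h'
      apply h
      intro l hl
      have := h' l
      rwa [Function.update_of_ne hl] at this
  · rw [if_neg hi, if_neg]
    intro h'
    have := h' i
    rw [Function.update_self] at this
    exact hi this

lemma HB_update {m : ℕ} {U : ℝ × (Fin (m + 1) → ℝ) → ℝ} (hU : Pot U) (s : ℝ)
    (W : Fin (m + 1) → ℝ) (i : Fin (m + 1)) (c : ℝ) :
    HB U (s, Function.update W i c) = ∫⁻ a in Icc (-c) c, marg i (hw U s W i) a := by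
  rw [HB_eq, lintegral_insertNth i (measurable_hb hU s _),
    ← lintegral_indicator measurableSet_Icc]
  refine lintegral_congr fun a => ?_
  by_cases ha : a ∈ Icc (-c) c
  · rw [indicator_of_mem ha]
    unfold marg
    refine lintegral_congr fun x' => ?_
    rw [hb_update, Fin.insertNth_apply_same, if_pos (abs_le.2 ha)]
  · rw [indicator_of_notMem ha]
    rw [← lintegral_zero (μ := (volume : Measure (Fin m → ℝ)))]
    refine lintegral_congr fun x' => ?_
    rw [hb_update, Fin.insertNth_apply_same, if_neg fun h => ha (abs_le.1 h)]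

lemma marg_hw_ne_top {m : ℕ} {U : ℝ × (Fin (m + 1) → ℝ) → ℝ} (hU : Pot U) (s : ℝ)
    (W : Fin (m + 1) → ℝ) (i : Fin (m + 1)) (a : ℝ) : marg i (hw U s W i) a ≠ ∞ := by
  have h1 : marg i (hw U s W i) a ≤ volume {x' : Fin m → ℝ | ∀ j, |x' j| ≤ W (i.succAbove j)} := by
    rw [← lintegral_indicator_one (measurableSet_box _)]
    refine lintegral_mono fun x' => ?_
    by_cases hx : x' ∈ {x' : Fin m → ℝ | ∀ j, |x' j| ≤ W (i.succAbove j)}
    · rw [indicator_of_mem hx, Pi.one_apply]
      unfold hw
      split_ifs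
      · rw [ENNReal.ofReal_le_one, Real.exp_le_one_iff]
        linarith [hU.nonneg (s, i.insertNth a x')]
      · exact zero_le
    · rw [indicator_of_notMem hx]
      unfold hw
      rw [if_neg]
      intro h
      apply hx
      intro j
      have := h (i.succAbove j) (Fin.succAbove_ne i j)
      rwa [Fin.insertNth_apply_succAbove] at this
  refine ne_top_of_le_ne_top ?_ h1
  have h2 : {x' : Fin m → ℝ | ∀ j, |x' j| ≤ W (i.succAbove j)} ⊆
      Set.pi univ fun j => Icc (-W (i.succAbove j)) (W (i.succAbove j)) :=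
    fun x hx j _ => abs_le.1 (hx j)
  refine ne_top_of_le_ne_top ?_ (measure_mono h2)
  rw [volume_pi_pi]
  refine ENNReal.prod_ne_top fun j _ => ?_
  rw [Real.volume_Icc]
  exact ENNReal.ofReal_ne_top

theorem corna : CORNA_S := by
  intro n U hU s W hW i κ δ hδ hδW hκ
  obtain ⟨m, rfl⟩ : ∃ m, n = m + 1 := ⟨n - 1, by have := i.pos; omega⟩
  have hmk := measurable_marg i (measurable_hw hU s W i)
  have hfin : ∀ a, marg i (hw U s W i) a ≠ ∞ := marg_hw_ne_top hU s W i
  have hanti : ∀ a c, |a| ≤ c → marg i (hw U s W i) c ≤ marg i (hw U s W i) a := fun a c hac =>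
    marg_ge i (measurable_hw hU s W i) (hw_even hU s W i)
      (fun t h0 h1 x y => hw_logc hU s W i t h0 h1 x y) hac
  have heven : ∀ a, marg i (hw U s W i) (-a) = marg i (hw U s W i) a := by
    intro a
    refine le_antisymm ?_ ?_
    · rcases le_total 0 a with h | h
      · -- marg (-a) ≤ marg a : use marg_ge at |a|
        unfold marg
        rw [← lintegral_neg_eq_self]
        refine lintegral_mono fun x' => le_of_eq ?_
        rw [← hw_even hU]
        congr 1
        ext j
        refine Fin.succAboveCases i ?_ (fun j => ?_) j <;> simp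
      · unfold marg
        rw [← lintegral_neg_eq_self]
        refine lintegral_mono fun x' => le_of_eq ?_
        rw [← hw_even hU]
        congr 1
        ext j
        refine Fin.succAboveCases i ?_ (fun j => ?_) j <;> simp
    · unfold marg
      rw [← lintegral_neg_eq_self]
      refine lintegral_mono fun x' => le_of_eq ?_
      rw [← hw_even hU]
      congr 1
      ext j
      refine Fin.succAboveCases i ?_ (fun j => ?_) j <;> simp
  have hHBfin : ∀ c, HB U (s, Function.update W i c) ≠ ∞ := by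
    intro c
    rw [HB_update hU]
    have hb0 : ∀ a ∈ Icc (-c) c, marg i (hw U s W i) a ≤ marg i (hw U s W i) 0 := fun a _ =>
      hanti 0 |a| (by simp) |>.trans' (by
        rcases abs_choice a with h | h
        · rw [h]
        · rw [h, heven])
    refine ne_top_of_le_ne_top ?_ (setLIntegral_mono' measurableSet_Icc hb0)
    rw [setLIntegral_const, Real.volume_Icc]
    exact ENNReal.mul_ne_top (hfin 0) ENNReal.ofReal_ne_top
  set k : ℝ := (marg i (hw U s W i) (W i)).toReal with hk
  have hk0 : 0 ≤ k := ENNReal.toReal_nonneg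
  have hκ2 : κ ≤ 2 * k := by
    refine deriv_le_of_right hκ fun ε hε => ?_
    have h1 : HB U (s, Function.update W i (W i + ε)) ≤
        HB U (s, Function.update W i (W i)) +
          (ENNReal.ofReal (2 * ε) * marg i (hw U s W i) (W i)) := by
      rw [HB_update hU, HB_update hU]
      have hsub : Icc (-(W i + ε)) (W i + ε) ⊆
          Icc (-W i) (W i) ∪ (Ico (-(W i + ε)) (-W i) ∪ Ioc (W i) (W i + ε)) := by
        intro a ha
        by_cases h1 : a < -W i
        · exact Or.inr (Or.inl ⟨ha.1, h1⟩)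
        · by_cases h2 : W i < a
          · exact Or.inr (Or.inr ⟨h2, ha.2⟩)
          · exact Or.inl ⟨not_lt.1 h1, not_lt.1 h2⟩
      refine (lintegral_mono_set hsub).trans ((lintegral_union_le _ _ _).trans ?_)
      refine add_le_add le_rfl ((lintegral_union_le _ _ _).trans ?_)
      have hl : ∫⁻ a in Ico (-(W i + ε)) (-W i), marg i (hw U s W i) a ≤
          ENNReal.ofReal ε * marg i (hw U s W i) (W i) := by
        have hb0 : ∀ a ∈ Ico (-(W i + ε)) (-W i), marg i (hw U s W i) a ≤
            marg i (hw U s W i) (W i) := by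
          intro a ha
          rw [← heven a]
          refine hanti (W i) (-a) ?_
          rw [abs_of_pos (hW i)]
          linarith [ha.2]
        refine (setLIntegral_mono' measurableSet_Ico hb0).trans (le_of_eq ?_)
        rw [setLIntegral_const, Real.volume_Ico, mul_comm]
        congr 2
        ring
      have hr : ∫⁻ a in Ioc (W i) (W i + ε), marg i (hw U s W i) a ≤
          ENNReal.ofReal ε * marg i (hw U s W i) (W i) := by
        have hb0 : ∀ a ∈ Ioc (W i) (W i + ε), marg i (hw U s W i) a ≤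
            marg i (hw U s W i) (W i) := by
          intro a ha
          refine hanti (W i) a ?_
          rw [abs_of_pos (hW i)]
          exact ha.1.le
        refine (setLIntegral_mono' measurableSet_Ioc hb0).trans (le_of_eq ?_)
        rw [setLIntegral_const, Real.volume_Ioc, mul_comm]
        congr 2
        ring
      refine (add_le_add hl hr).trans (le_of_eq ?_)
      rw [← add_mul, ← ENNReal.ofReal_add hε.le hε.le]
      congr 2
      ring
    have h2 := ENNReal.toReal_mono (ENNReal.add_ne_top.2 ⟨hHBfin _,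
      ENNReal.mul_ne_top ENNReal.ofReal_ne_top (hfin _)⟩) h1
    rw [ENNReal.toReal_add (hHBfin _) (ENNReal.mul_ne_top ENNReal.ofReal_ne_top (hfin _)),
      ENNReal.toReal_mul, ENNReal.toReal_ofReal (by positivity)] at h2
    have e1 : 2 * ε * (marg i (hw U s W i) (W i)).toReal = ε * (2 * k) := by rw [hk]; ring
    rw [e1] at h2
    exact h2
  have hκ0 : 0 ≤ κ := by
    refine le_deriv_of_right hκ fun ε hε => ?_
    rw [mul_zero, add_zero]
    refine ENNReal.toReal_mono (hHBfin _) ?_
    rw [HB_update hU, HB_update hU]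
    exact lintegral_mono_set (Icc_subset_Icc (by linarith) (by linarith))
  have hmb : Measurable (hb U s W) := measurable_hb hU s W
  have hbw : hb U s W = fun x => if |x i| ≤ W i then hw U s W i x else 0 := by
    funext x
    have := hb_update U s W i (W i) x
    rwa [Function.update_eq_self] at this
  have hbe : ∀ x, hb U s W (-x) = hb U s W x := by
    intro x
    rw [hbw]
    simp only [Pi.neg_apply, abs_neg, hw_even hU]
  have hbl : ∀ t : ℝ, 0 < t → t < 1 → ∀ x y, hb U s W x ^ (1 - t) * hb U s W y ^ t ≤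
      hb U s W ((1 - t) • x + t • y) := by
    intro t h0 h1 x y
    rw [hbw]
    by_cases hx : |x i| ≤ W i
    · by_cases hy : |y i| ≤ W i
      · have hz : |((1 - t) • x + t • y) i| ≤ W i := by
          simp only [Pi.add_apply, Pi.smul_apply, smul_eq_mul]
          have h3 : |(1 - t) * x i + t * y i| ≤ (1 - t) * |x i| + t * |y i| := by
            refine (abs_add_le _ _).trans (le_of_eq ?_)
            rw [abs_mul, abs_mul, abs_of_pos h0, abs_of_pos (by linarith : 0 < 1 - t)]
          nlinarith
        simp only [if_pos hx, if_pos hy, if_pos hz]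
        exact hw_logc hU s W i t h0 h1 x y
      · simp only [if_neg hy]
        rw [ENNReal.zero_rpow_of_pos h0, mul_zero]
        exact zero_le
    · simp only [if_neg hx]
      rw [ENNReal.zero_rpow_of_pos (by linarith), zero_mul]
      exact zero_le
  have hfar := far_mass i hmb hbe hbl (W := W i) (d := W i - δ) (by linarith) (by linarith)
  have hmargW : marg i (hb U s W) (W i) = marg i (hw U s W i) (W i) := by
    unfold marg
    refine lintegral_congr fun x' => ?_
    rw [hbw]
    simp only [Fin.insertNth_apply_same]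
    rw [if_pos (by rw [abs_of_pos (hW i)])]
  rw [hmargW] at hfar
  calc ENNReal.ofReal ((δ * κ) ^ 2)
      ≤ ENNReal.ofReal (4 * (W i - (W i - δ)) ^ 2) * marg i (hw U s W i) (W i) ^ 2 := by
        rw [← ENNReal.ofReal_toReal (hfin (W i)), ← ENNReal.ofReal_pow ENNReal.toReal_nonneg,
          ← ENNReal.ofReal_mul (by positivity), ← hk]
        refine ENNReal.ofReal_le_ofReal ?_
        have h1 : δ * κ ≤ δ * (2 * k) := mul_le_mul_of_nonneg_left hκ2 hδ
        have h2 : 0 ≤ δ * κ := mul_nonneg hδ hκ0
        calc (δ * κ) ^ 2 ≤ (δ * (2 * k)) ^ 2 := pow_le_pow_left₀ h2 h1 2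
          _ = _ := by ring
    _ ≤ _ := hfar
    _ = _ := by
        refine lintegral_congr fun x => lintegral_congr fun y => ?_
        by_cases hf : (x, y) ∈ {p : (Fin (m + 1) → ℝ) × (Fin (m + 1) → ℝ) |
            2 * (W i - δ) < |p.1 i - p.2 i|}
        · rw [indicator_of_mem hf]
          have hf' : 2 * (W i - δ) < |x i - y i| := hf
          by_cases h : ∀ l, |x l| ≤ W l ∧ |y l| ≤ W l
          · rw [if_pos ⟨h, hf'⟩]
            simp only [hb, if_pos (fun l => (h l).1), if_pos (fun l => (h l).2)]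
          · rw [if_neg fun hh => h hh.1]
            by_cases hx : ∀ l, |x l| ≤ W l
            · have hy : ¬ ∀ l, |y l| ≤ W l := fun hy => h fun l => ⟨hx l, hy l⟩
              simp only [hb, if_neg hy, mul_zero]
            · simp only [hb, if_neg hx, zero_mul]
        · rw [indicator_of_notMem hf, if_neg]
          intro hh
          exact hf hh.2

/-! ### CORN -/

theorem corn : CORN_S := by
  intro n U hU s W κ hW hκ
  obtain ⟨C, hC0, hC⟩ := cornb n W hW
  refine ⟨C, hC0, fun δ hδ => ?_⟩
  set d : Fin n → ℝ := fun i => W i - δ i with hd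
  set G : (Fin n → ℝ) × (Fin n → ℝ) → ℝ≥0∞ := fun p => hb U s W p.1 * hb U s W p.2 with hG
  have hmb : Measurable (hb U s W) := measurable_hb hU s W
  have hGm : Measurable G := (hmb.comp measurable_fst).mul (hmb.comp measurable_snd)
  have hG1 : ∀ p, G p ≤ 1 := fun p => by
    have := mul_le_mul' (hb_le_one hU s W p.1) (hb_le_one hU s W p.2)
    rwa [mul_one] at this
  have eall : (HB U (s, W)) ^ 2 = ∫⁻ p, G p := by
    rw [Measure.volume_eq_prod, lintegral_prod _ hGm.aemeasurable, pow_two, HB_eq]
    simp only [hG]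
    simp_rw [lintegral_const_mul _ hmb]
    rw [lintegral_mul_const _ hmb]
  have epr : ∀ S : Set ((Fin n → ℝ) × (Fin n → ℝ)), MeasurableSet S →
      ∫⁻ X, ∫⁻ Y, S.indicator G (X, Y) = ∫⁻ p, S.indicator G p := by
    intro S hS
    rw [Measure.volume_eq_prod, lintegral_prod _ (hGm.indicator hS).aemeasurable]
  have hfar : ∀ i, ENNReal.ofReal ((δ i * κ i) ^ 2) ≤ ∫⁻ p, (farPairs d i).indicator G p := by
    intro i
    rw [← epr _ (measurableSet_farPairs d i)]
    refine (corna n U hU s W hW i (κ i) (δ i) (hδ i).1 (hδ i).2 (hκ i)).trans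
      (lintegral_mono fun x => lintegral_mono fun y => ?_)
    split_ifs with h
    · have hf : (x, y) ∈ farPairs d i := h.2
      rw [indicator_of_mem hf]
      simp only [hG, hb, if_pos (fun l => (h.1 l).1), if_pos (fun l => (h.1 l).2)]
      exact le_rfl
    · exact zero_le
  have hov : ∀ i, ∀ l ∈ Finset.univ.erase i,
      ∫⁻ p, (farPairs d i ∩ farPairs d l).indicator G p ≤
        ENNReal.ofReal (C * δ i ^ 2 * δ l ^ 2) := by
    intro i l hl
    rw [← epr _ ((measurableSet_farPairs d i).inter (measurableSet_farPairs d l))]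
    refine le_trans (lintegral_mono fun x => lintegral_mono fun y => ?_)
      (hC i l (Finset.ne_of_mem_erase hl).symm (δ i) (δ l) (hδ i).1 (hδ i).2 (hδ l).1 (hδ l).2)
    by_cases hf : (x, y) ∈ farPairs d i ∩ farPairs d l
    · rw [indicator_of_mem hf]
      by_cases h0 : G (x, y) = 0
      · rw [h0]; exact zero_le
      · have hx : hb U s W x ≠ 0 := fun h => h0 (by simp only [hG, h, zero_mul])
        have hy : hb U s W y ≠ 0 := fun h => h0 (by simp only [hG, h, mul_zero])
        rw [if_pos ⟨fun m => ⟨hb_ne hx m, hb_ne hy m⟩, hf.1, hf.2⟩]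
        exact hG1 _
    · rw [indicator_of_notMem hf]
      exact zero_le
  have hmain : JJ U s W δ + ∑ i, ENNReal.ofReal ((δ i * κ i) ^ 2) ≤ (HB U (s, W)) ^ 2 +
      ∑ i, ∑ l ∈ Finset.univ.erase i, ENNReal.ofReal (C * δ i ^ 2 * δ l ^ 2) := by
    rw [eall, JJ_eq, epr _ (measurableSet_closePairs _)]
    have hbf := lintegral_mono (μ := volume) (bonferroni d G)
    rw [lintegral_add_left (hGm.indicator (measurableSet_closePairs d)),
      lintegral_add_left hGm, lintegral_finsetSum _ fun i _ =>
        hGm.indicator (measurableSet_farPairs d i),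
      lintegral_finsetSum _ fun i _ => Finset.measurable_sum _ fun l _ =>
        hGm.indicator ((measurableSet_farPairs d i).inter (measurableSet_farPairs d l))] at hbf
    refine (add_le_add le_rfl (Finset.sum_le_sum fun i _ => hfar i)).trans (hbf.trans ?_)
    refine add_le_add le_rfl (Finset.sum_le_sum fun i _ => ?_)
    rw [lintegral_finsetSum _ fun l _ =>
        hGm.indicator ((measurableSet_farPairs d i).inter (measurableSet_farPairs d l))]
    exact Finset.sum_le_sum fun l hl => hov i l hl
  have hHfin : HB U (s, W) ≠ ∞ := by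
    rw [HB_eq]
    have h1 : ∫⁻ x, hb U s W x ≤ volume {x : Fin n → ℝ | ∀ j, |x j| ≤ W j} := by
      rw [← lintegral_indicator_one (measurableSet_box W)]
      refine lintegral_mono fun x => ?_
      by_cases hx : x ∈ {x : Fin n → ℝ | ∀ j, |x j| ≤ W j}
      · rw [indicator_of_mem hx, Pi.one_apply]
        exact hb_le_one hU s W x
      · rw [indicator_of_notMem hx]
        unfold hb
        rw [if_neg (show ¬ ∀ j, |x j| ≤ W j from hx)]
    refine ne_top_of_le_ne_top ?_ h1
    have h2 : {x : Fin n → ℝ | ∀ j, |x j| ≤ W j} ⊆ Set.pi univ fun j => Icc (-W j) (W j) :=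
      fun x hx j _ => abs_le.1 (hx j)
    refine ne_top_of_le_ne_top ?_ (measure_mono h2)
    rw [volume_pi_pi]
    refine ENNReal.prod_ne_top fun j _ => ?_
    rw [Real.volume_Icc]
    exact ENNReal.ofReal_ne_top
  have e2 : ∑ i, ENNReal.ofReal ((δ i * κ i) ^ 2) = ENNReal.ofReal (∑ i, (δ i * κ i) ^ 2) :=
    (ENNReal.ofReal_sum_of_nonneg fun i _ => sq_nonneg _).symm
  have e3 : ∑ i, ∑ l ∈ Finset.univ.erase i, ENNReal.ofReal (C * δ i ^ 2 * δ l ^ 2) =
      ENNReal.ofReal (C * ∑ i, ∑ l ∈ Finset.univ.erase i, δ i ^ 2 * δ l ^ 2) := by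
    rw [Finset.mul_sum, ENNReal.ofReal_sum_of_nonneg]
    · refine Finset.sum_congr rfl fun i _ => ?_
      rw [Finset.mul_sum, ENNReal.ofReal_sum_of_nonneg]
      · refine Finset.sum_congr rfl fun l _ => ?_
        congr 1
        ring
      · intro l _
        positivity
    · intro i _
      refine mul_nonneg hC0 (Finset.sum_nonneg fun l _ => by positivity)
  rw [e2, e3] at hmain
  have hfin2 : (HB U (s, W)) ^ 2 + ENNReal.ofReal
      (C * ∑ i, ∑ l ∈ Finset.univ.erase i, δ i ^ 2 * δ l ^ 2) ≠ ∞ :=
    ENNReal.add_ne_top.2 ⟨ENNReal.pow_ne_top hHfin, ENNReal.ofReal_ne_top⟩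
  have hJ : JJ U s W δ ≠ ∞ := ne_top_of_le_ne_top hfin2 (le_trans le_self_add hmain)
  have h3 := ENNReal.toReal_mono hfin2 hmain
  rw [ENNReal.toReal_add hJ ENNReal.ofReal_ne_top, ENNReal.toReal_add (ENNReal.pow_ne_top hHfin)
    ENNReal.ofReal_ne_top, ENNReal.toReal_ofReal (Finset.sum_nonneg fun i _ => sq_nonneg _),
    ENNReal.toReal_ofReal, ENNReal.toReal_pow] at h3
  · linarith
  · exact mul_nonneg hC0 (Finset.sum_nonneg fun i _ => Finset.sum_nonneg fun l _ => by positivity)

end Pool.Agent.Lib.MP_2d002d_gt.PM.H72
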