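import Pool.Agent.Lib.MP_2d002d_gt.H29.Doubling

set_option autoImplicit false

/-!
Doubling at the walls, formula (2.1) of the paper, in a form without smoothness.
-/

open MeasureTheory Set Filter
open scoped ENNReal NNReal Pointwise

namespace Pool.Agent.Lib.MP_2d002d_gt.PM.H72

open Pool.Agent.Lib.MP_2c1b2b_gt.H32 Pool.Agent.Lib.MP_2d002d_gt.H29

variable {ι : Type*} [Fintype ι]

lemma rpow_half_le_of_sq {a b : ℝ≥0∞} (h : a ≤ b ^ 2) : a ^ (1 / 2 : ℝ) ≤ b := by
  have h1 : a ^ (1 / 2 : ℝ) ≤ (b ^ 2) ^ (1 / 2 : ℝ) := ENNReal.rpow_le_rpow h (by norm_num)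
  have h2 : (b ^ 2) ^ (1 / 2 : ℝ) = b := by
    rw [← ENNReal.rpow_natCast b 2, ← ENNReal.rpow_mul]
    norm_num
  rwa [h2] at h1

/-- the pairs of points which are not too far from each other -/
def closePairs (d : ι → ℝ) : Set ((ι → ℝ) × (ι → ℝ)) := {p | ∀ i, |p.1 i - p.2 i| ≤ 2 * d i}

lemma measurableSet_closePairs (d : ι → ℝ) : MeasurableSet (closePairs d) := by
  have : closePairs d = ⋂ i, {p : (ι → ℝ) × (ι → ℝ) | |p.1 i - p.2 i| ≤ 2 * d i} := by
    ext p; simp [closePairs]
  rw [this]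
  refine MeasurableSet.iInter fun i => measurableSet_le ?_ measurable_const
  fun_prop

/-- Doubling at the walls. -/
theorem dbl {Fp Fm F0 : (ι → ℝ) → ℝ≥0∞} (mp : Measurable Fp) (mm : Measurable Fm)
    (m0 : Measurable F0) (a b : ι → ℝ) (hp : ∀ x, Fp x ≠ 0 → ∀ i, |x i| ≤ a i)
    (hm : ∀ y, Fm y ≠ 0 → ∀ i, |y i| ≤ b i)
    (h : ∀ x y, Fp x * Fm y ≤ F0 ((1 / 2 : ℝ) • (x + y)) ^ 2) :
    (∫⁻ x, Fp x) * (∫⁻ y, Fm y) ≤ ∫⁻ X, ∫⁻ Y,
      (closePairs fun i => min (a i) (b i)).indicator (fun p => F0 p.1 * F0 p.2) (X, Y) := by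
  classical
  set F : (ι → ℝ) → (ι → ℝ) → ℝ≥0∞ := fun x y => Fp x * Fm y with hF
  set H : (ι → ℝ) → (ι → ℝ) → ℝ≥0∞ := fun x y =>
    (closePairs fun i => min (a i) (b i)).indicator (fun p => F0 p.1 * F0 p.2) (x, y) with hH
  have hFm : Measurable (Function.uncurry F) :=
    (mp.comp measurable_fst).mul (mm.comp measurable_snd)
  have hHm : Measurable (Function.uncurry H) := by
    have : Measurable (fun p : (ι → ℝ) × (ι → ℝ) => F0 p.1 * F0 p.2) :=
      (m0.comp measurable_fst).mul (m0.comp measurable_snd)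
    exact this.indicator (measurableSet_closePairs _)
  have e0 : (∫⁻ x, Fp x) * (∫⁻ y, Fm y) = ∫⁻ x, ∫⁻ y, F x y := by
    simp only [hF]
    simp_rw [lintegral_const_mul _ mm]
    rw [lintegral_mul_const _ mp]
  rw [e0]
  obtain ⟨C, hC0, hCt, hC⟩ := exists_rot ι
  have key : ∫⁻ u, ∫⁻ v, F (u + v) (u - v) ≤ ∫⁻ u, ∫⁻ v, H (u + v) (u - v) := by
    refine lintegral_mono (fun u => ?_)
    have mF : Measurable (fun v => F (u + v) (u - v)) :=
      hFm.comp ((measurable_const.add measurable_id).prodMk (measurable_const.sub measurable_id))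
    have mH : Measurable (fun v => H (u + v) (u - v)) :=
      hHm.comp ((measurable_const.add measurable_id).prodMk (measurable_const.sub measurable_id))
    have mF' : Measurable (fun v => F (u + -v) (u - -v)) := mF.comp measurable_neg
    have hpl := pl_pi ι (1 / 2) (by norm_num) (by norm_num) (fun v => F (u + v) (u - v))
      (fun v => F (u + -v) (u - -v)) (fun v => H (u + v) (u - v)) mF mF' mH ?_
    · have e1 : ∫⁻ v, F (u + -v) (u - -v) = ∫⁻ v, F (u + v) (u - v) :=
        lintegral_neg_eq_self (fun v => F (u + v) (u - v))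
      rw [e1, ← ENNReal.rpow_add_of_nonneg _ _ (by norm_num) (by norm_num)] at hpl
      simpa using hpl
    · intro v w
      have half : (1 : ℝ) - 1 / 2 = 1 / 2 := by norm_num
      rw [half, ← ENNReal.mul_rpow_of_nonneg _ _ (by norm_num : (0 : ℝ) ≤ 1 / 2)]
      refine rpow_half_le_of_sq ?_
      by_cases hh : Fp (u + v) ≠ 0 ∧ Fm (u - v) ≠ 0 ∧ Fp (u + -w) ≠ 0 ∧ Fm (u - -w) ≠ 0
      · obtain ⟨m1, m2, m3, m4⟩ := hh
        have n1 := h (u + v) (u - -w)
        have n2 := h (u + -w) (u - v)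
        have e1 : (1 / 2 : ℝ) • (u + v + (u - -w)) =
            u + ((1 / 2 : ℝ) • v + (1 / 2 : ℝ) • w) := by ext i; simp; ring
        have e2 : (1 / 2 : ℝ) • (u + -w + (u - v)) =
            u - ((1 / 2 : ℝ) • v + (1 / 2 : ℝ) • w) := by ext i; simp; ring
        rw [e1] at n1
        rw [e2] at n2
        have hmem : (u + ((1 / 2 : ℝ) • v + (1 / 2 : ℝ) • w),
            u - ((1 / 2 : ℝ) • v + (1 / 2 : ℝ) • w)) ∈
            closePairs fun i => min (a i) (b i) := by
          intro i
          have p1 := hp _ m1 i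
          have p3 := hp _ m3 i
          have p2 := hm _ m2 i
          have p4 := hm _ m4 i
          simp only [Pi.add_apply, Pi.sub_apply, Pi.neg_apply] at p1 p2 p3 p4
          simp only [Pi.add_apply, Pi.sub_apply, Pi.smul_apply, smul_eq_mul]
          rw [abs_le] at p1 p2 p3 p4 ⊢
          rcases le_total (a i) (b i) with hab | hab
          · rw [min_eq_left hab]
            constructor <;> linarith
          · rw [min_eq_right hab]
            constructor <;> linarith
        simp only [hF, hH, indicator_of_mem hmem]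
        calc Fp (u + v) * Fm (u - v) * (Fp (u + -w) * Fm (u - -w))
            = Fp (u + v) * Fm (u - -w) * (Fp (u + -w) * Fm (u - v)) := by ring
          _ ≤ _ := mul_le_mul' n1 n2
          _ = _ := by ring
      · have : F (u + v) (u - v) * F (u + -w) (u - -w) = 0 := by
          simp only [hF]
          by_contra hne
          apply hh
          simp only [mul_eq_zero, not_or] at hne
          exact ⟨hne.1.1, hne.1.2, hne.2.1, hne.2.2⟩
        rw [this]
        exact bot_le
  rw [hC F hFm, hC H hHm] at key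
  exact (ENNReal.mul_le_mul_iff_right hC0 hCt).1 key

end Pool.Agent.Lib.MP_2d002d_gt.PM.H72
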