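import Pool.Agent.Lib.MP_2d002d_gt.PM.H72.Dbl

set_option autoImplicit false

/-!
The mass of the pairs which are far from each other in one coordinate.
-/

open MeasureTheory Set Filter
open scoped ENNReal NNReal

namespace Pool.Agent.Lib.MP_2d002d_gt.PM.H72

open Pool.Agent.Lib.MP_2c1b2b_gt.H32

/-- integration, one coordinate first -/
lemma lintegral_insertNth {m : ℕ} (i : Fin (m + 1)) {F : (Fin (m + 1) → ℝ) → ℝ≥0∞}
    (hF : Measurable F) :
    ∫⁻ x, F x = ∫⁻ a : ℝ, ∫⁻ x' : Fin m → ℝ, F (i.insertNth a x') := by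
  have e := (volume_preserving_piFinSuccAbove (fun _ : Fin (m + 1) => ℝ) i).symm
  rw [← e.lintegral_comp hF, Measure.volume_eq_prod, lintegral_prod]
  · rfl
  · exact (hF.comp (MeasurableEquiv.measurable _)).aemeasurable

lemma measurable_insertNth {m : ℕ} (i : Fin (m + 1)) :
    Measurable fun p : ℝ × (Fin m → ℝ) => (i.insertNth p.1 p.2 : Fin (m + 1) → ℝ) :=
  (MeasurableEquiv.piFinSuccAbove (fun _ : Fin (m + 1) => ℝ) i).symm.measurable

/-- the marginal density -/
noncomputable def marg {m : ℕ} (i : Fin (m + 1)) (F : (Fin (m + 1) → ℝ) → ℝ≥0∞) (a : ℝ) : ℝ≥0∞ :=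
  ∫⁻ x' : Fin m → ℝ, F (i.insertNth a x')

lemma measurable_marg {m : ℕ} (i : Fin (m + 1)) {F : (Fin (m + 1) → ℝ) → ℝ≥0∞}
    (hF : Measurable F) : Measurable (marg i F) := by
  have : Measurable (Function.uncurry fun (a : ℝ) (x' : Fin m → ℝ) => F (i.insertNth a x')) :=
    hF.comp (measurable_insertNth i)
  exact this.lintegral_prod_right'

/-- the area of the two corner triangles of a square -/
lemma corner_area {W d : ℝ} (hd : 0 ≤ d) (hdW : d ≤ W) :
    ENNReal.ofReal (4 * (W - d) ^ 2) ≤
      ∫⁻ a in Icc (-W) W, volume {b : ℝ | |b| ≤ W ∧ 2 * d < |a - b|} := by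
  have h1 : ∀ a ∈ Icc (-W) W, ENNReal.ofReal (a - 2 * d + W) + ENNReal.ofReal (-a - 2 * d + W) ≤
      volume {b : ℝ | |b| ≤ W ∧ 2 * d < |a - b|} := by
    intro a ha
    have hdis : Disjoint (Ico (-W) (a - 2 * d)) (Ioc (a + 2 * d) W) := by
      rw [Set.disjoint_left]
      rintro b ⟨_, hb1⟩ ⟨hb2, _⟩
      linarith
    have hsub : Ico (-W) (a - 2 * d) ∪ Ioc (a + 2 * d) W ⊆ {b : ℝ | |b| ≤ W ∧ 2 * d < |a - b|} := by
      rintro b (⟨hb1, hb2⟩ | ⟨hb1, hb2⟩)
      · refine ⟨abs_le.2 ⟨hb1, by linarith [ha.2]⟩, ?_⟩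
        exact lt_of_lt_of_le (by linarith) (le_abs_self _)
      · refine ⟨abs_le.2 ⟨by linarith [ha.1], hb2⟩, ?_⟩
        exact lt_of_lt_of_le (by linarith) (neg_le_abs _)
    refine le_trans (le_of_eq ?_) (measure_mono hsub)
    rw [measure_union hdis measurableSet_Ioc, Real.volume_Ico, Real.volume_Ioc]
    congr 1
    · congr 1; ring
    · congr 1; ring
  have h2 : ∫⁻ a in Icc (-W) W, (ENNReal.ofReal (a - 2 * d + W) +
      ENNReal.ofReal (-a - 2 * d + W)) ≤
      ∫⁻ a in Icc (-W) W, volume {b : ℝ | |b| ≤ W ∧ 2 * d < |a - b|} :=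
    setLIntegral_mono' measurableSet_Icc h1
  refine le_trans ?_ h2
  rw [lintegral_add_left (by fun_prop)]
  have e1 : ENNReal.ofReal (2 * (W - d) ^ 2) ≤
      ∫⁻ a in Icc (-W) W, ENNReal.ofReal (a - 2 * d + W) := by
    have hsub : Icc (2 * d - W) W ⊆ Icc (-W) W := Icc_subset_Icc (by linarith) le_rfl
    refine le_trans (le_of_eq ?_) (lintegral_mono_set hsub)
    rw [← ofReal_integral_eq_lintegral_ofReal]
    · congr 1
      rw [integral_Icc_eq_integral_Ioc, ← intervalIntegral.integral_of_le (by linarith)]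
      have : ∫ a in (2 * d - W)..W, (a - 2 * d + W) =
          (fun x => (x - 2 * d + W) ^ 2 / 2) W - (fun x => (x - 2 * d + W) ^ 2 / 2) (2 * d - W) := by
        refine intervalIntegral.integral_eq_sub_of_hasDerivAt
          (f := fun x => (x - 2 * d + W) ^ 2 / 2) ?_ ?_
        · intro x _
          have := ((((hasDerivAt_id' x).sub_const (2 * d)).add_const W).pow 2).div_const 2
          have e : (x - 2 * d + W) = ((2 : ℕ) * (x - 2 * d + W) ^ (2 - 1) * 1) / 2 := by
            norm_num
          rw [e]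
          exact this
        · exact (by fun_prop : Continuous fun a : ℝ => a - 2 * d + W).intervalIntegrable _ _
      rw [this]
      ring
    · exact (by fun_prop : Continuous fun a : ℝ => a - 2 * d + W).continuousOn.integrableOn_Icc
    · refine (ae_restrict_iff' measurableSet_Icc).2 (Filter.Eventually.of_forall ?_)
      intro a ha
      simp only [Pi.zero_apply]
      linarith [ha.1]
  have e2 : ENNReal.ofReal (2 * (W - d) ^ 2) ≤
      ∫⁻ a in Icc (-W) W, ENNReal.ofReal (-a - 2 * d + W) := by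
    have hsub : Icc (-W) (W - 2 * d) ⊆ Icc (-W) W := Icc_subset_Icc le_rfl (by linarith)
    refine le_trans (le_of_eq ?_) (lintegral_mono_set hsub)
    rw [← ofReal_integral_eq_lintegral_ofReal]
    · congr 1
      rw [integral_Icc_eq_integral_Ioc, ← intervalIntegral.integral_of_le (by linarith)]
      have : ∫ a in (-W)..(W - 2 * d), (-a - 2 * d + W) =
          (fun x => -(-x - 2 * d + W) ^ 2 / 2) (W - 2 * d) -
            (fun x => -(-x - 2 * d + W) ^ 2 / 2) (-W) := by
        refine intervalIntegral.integral_eq_sub_of_hasDerivAt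
          (f := fun x => -(-x - 2 * d + W) ^ 2 / 2) ?_ ?_
        · intro x _
          have := (((((hasDerivAt_id' x).neg).sub_const (2 * d)).add_const W).pow 2).neg.div_const 2
          have e : (-x - 2 * d + W) = -((2 : ℕ) * (-x - 2 * d + W) ^ (2 - 1) * -1) / 2 := by
            norm_num
          rw [e]
          exact this
        · exact (by fun_prop : Continuous fun a : ℝ => -a - 2 * d + W).intervalIntegrable _ _
      rw [this]
      ring
    · exact (by fun_prop : Continuous fun a : ℝ => -a - 2 * d + W).continuousOn.integrableOn_Icc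
    · refine (ae_restrict_iff' measurableSet_Icc).2 (Filter.Eventually.of_forall ?_)
      intro a ha
      simp only [Pi.zero_apply]
      linarith [ha.2]
  calc ENNReal.ofReal (4 * (W - d) ^ 2)
      = ENNReal.ofReal (2 * (W - d) ^ 2) + ENNReal.ofReal (2 * (W - d) ^ 2) := by
        rw [← ENNReal.ofReal_add (by positivity) (by positivity)]; congr 1; ring
    _ ≤ _ := add_le_add e1 e2

/-- one-dimensional corner mass -/
lemma corner_mass {k : ℝ → ℝ≥0∞} (hk : Measurable k) {W d : ℝ} {K : ℝ≥0∞} (hd : 0 ≤ d)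
    (hdW : d ≤ W) (hK : ∀ a, |a| ≤ W → K ≤ k a) :
    ENNReal.ofReal (4 * (W - d) ^ 2) * K ^ 2 ≤
      ∫⁻ a, ∫⁻ b, {p : ℝ × ℝ | 2 * d < |p.1 - p.2|}.indicator (fun p => k p.1 * k p.2) (a, b) := by
  have hmS : MeasurableSet {p : ℝ × ℝ | 2 * d < |p.1 - p.2|} :=
    measurableSet_lt measurable_const (by fun_prop)
  calc ENNReal.ofReal (4 * (W - d) ^ 2) * K ^ 2
      ≤ (∫⁻ a in Icc (-W) W, volume {b : ℝ | |b| ≤ W ∧ 2 * d < |a - b|}) * K ^ 2 :=
        mul_le_mul_left (corner_area hd hdW) _
    _ ≤ ∫⁻ a in Icc (-W) W, volume {b : ℝ | |b| ≤ W ∧ 2 * d < |a - b|} * K ^ 2 :=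
        lintegral_mul_const_le _ _
    _ ≤ ∫⁻ a in Icc (-W) W, ∫⁻ b,
          {p : ℝ × ℝ | 2 * d < |p.1 - p.2|}.indicator (fun p => k p.1 * k p.2) (a, b) := by
        refine setLIntegral_mono' measurableSet_Icc fun a ha => ?_
        have hm1 : MeasurableSet {b : ℝ | |b| ≤ W} :=
          measurableSet_le (by fun_prop) measurable_const
        have hm2 : MeasurableSet {b : ℝ | 2 * d < |a - b|} :=
          measurableSet_lt measurable_const (by fun_prop)
        have hm : MeasurableSet {b : ℝ | |b| ≤ W ∧ 2 * d < |a - b|} := hm1.inter hm2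
        rw [mul_comm, ← setLIntegral_const, ← lintegral_indicator hm]
        refine lintegral_mono fun b => ?_
        by_cases hb : b ∈ {b : ℝ | |b| ≤ W ∧ 2 * d < |a - b|}
        · have hb' : (a, b) ∈ {p : ℝ × ℝ | 2 * d < |p.1 - p.2|} := hb.2
          rw [indicator_of_mem hb, indicator_of_mem hb', pow_two]
          exact mul_le_mul' (hK a (abs_le.2 ⟨ha.1, ha.2⟩)) (hK b hb.1)
        · rw [indicator_of_notMem hb]
          exact bot_le
    _ ≤ _ := setLIntegral_le_lintegral _ _

/-- `k_i(a) ≥ k_i(W)` for `|a| ≤ W`: Prekopa and symmetry -/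
lemma marg_ge {m : ℕ} (i : Fin (m + 1)) {F : (Fin (m + 1) → ℝ) → ℝ≥0∞} (hF : Measurable F)
    (heven : ∀ x, F (-x) = F x)
    (hlc : ∀ t : ℝ, 0 < t → t < 1 → ∀ x y, F x ^ (1 - t) * F y ^ t ≤ F ((1 - t) • x + t • y))
    {a W : ℝ} (ha : |a| ≤ W) : marg i F W ≤ marg i F a := by
  have hneg : marg i F (-W) = marg i F W := by
    unfold marg
    rw [← lintegral_neg_eq_self]
    refine lintegral_congr fun x' => ?_
    rw [← heven]
    congr 1
    ext j
    refine Fin.succAboveCases i ?_ (fun j => ?_) j <;> simp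
  rcases eq_or_lt_of_le ha with h | h
  · rcases abs_choice a with h1 | h1
    · rw [h1] at h; rw [h]
    · rw [h1] at h
      have : a = -W := by linarith
      rw [this, hneg]
  · rw [abs_lt] at h
    have hW : 0 < W := by linarith
    set t : ℝ := (W - a) / (2 * W) with ht
    have ht0 : 0 < t := div_pos (by linarith) (by linarith)
    have ht1 : t < 1 := by rw [ht, div_lt_one (by linarith)]; linarith
    have hm : ∀ c : ℝ, Measurable fun x' : Fin m → ℝ => F (i.insertNth c x') := fun c =>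
      hF.comp ((measurable_insertNth i).comp (measurable_const.prodMk measurable_id))
    have h2 := pl_fin m t ht0 ht1 (fun x' => F (i.insertNth W x'))
      (fun x' => F (i.insertNth (-W) x')) (fun x' => F (i.insertNth a x')) (hm _) (hm _) (hm _) ?_
    · have h3 : (marg i F W) ^ (1 - t) * (marg i F (-W)) ^ t ≤ marg i F a := h2
      rw [hneg, ← ENNReal.rpow_add_of_nonneg _ _ (by linarith) ht0.le] at h3
      simpa using h3
    · intro x y
      refine le_trans (hlc t ht0 ht1 _ _) (le_of_eq ?_)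
      congr 1
      ext j
      refine Fin.succAboveCases i ?_ (fun j => ?_) j
      · simp only [Pi.add_apply, Pi.smul_apply, Fin.insertNth_apply_same, smul_eq_mul]
        rw [ht]; field_simp; ring
      · simp

/-- the mass of the pairs which are far from each other in the coordinate `i` -/
theorem far_mass {m : ℕ} (i : Fin (m + 1)) {F : (Fin (m + 1) → ℝ) → ℝ≥0∞} (hF : Measurable F)
    (heven : ∀ x, F (-x) = F x)
    (hlc : ∀ t : ℝ, 0 < t → t < 1 → ∀ x y, F x ^ (1 - t) * F y ^ t ≤ F ((1 - t) • x + t • y))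
    {W d : ℝ} (hd : 0 ≤ d) (hdW : d ≤ W) :
    ENNReal.ofReal (4 * (W - d) ^ 2) * marg i F W ^ 2 ≤
      ∫⁻ X, ∫⁻ Y, {p : (Fin (m + 1) → ℝ) × (Fin (m + 1) → ℝ) | 2 * d < |p.1 i - p.2 i|}.indicator
        (fun p => F p.1 * F p.2) (X, Y) := by
  refine (corner_mass (measurable_marg i hF) hd hdW fun a ha =>
    marg_ge i hF heven hlc ha).trans (le_of_eq ?_)
  have hmS : MeasurableSet {p : (Fin (m + 1) → ℝ) × (Fin (m + 1) → ℝ) |
      2 * d < |p.1 i - p.2 i|} := measurableSet_lt measurable_const (by fun_prop)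
  have hmG : Measurable ({p : (Fin (m + 1) → ℝ) × (Fin (m + 1) → ℝ) |
      2 * d < |p.1 i - p.2 i|}.indicator (fun p => F p.1 * F p.2)) :=
    ((hF.comp measurable_fst).mul (hF.comp measurable_snd)).indicator hmS
  have e1 : ∀ X : Fin (m + 1) → ℝ, ∫⁻ Y, {p : (Fin (m + 1) → ℝ) × (Fin (m + 1) → ℝ) |
      2 * d < |p.1 i - p.2 i|}.indicator (fun p => F p.1 * F p.2) (X, Y) =
      F X * ∫⁻ b, {b : ℝ | 2 * d < |X i - b|}.indicator (marg i F) b := by
    intro X
    have hmb : MeasurableSet {b : ℝ | 2 * d < |X i - b|} :=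
      measurableSet_lt measurable_const (by fun_prop)
    rw [lintegral_insertNth i (F := fun Y => {p : (Fin (m + 1) → ℝ) × (Fin (m + 1) → ℝ) |
      2 * d < |p.1 i - p.2 i|}.indicator (fun p => F p.1 * F p.2) (X, Y))
      (hmG.comp (measurable_const.prodMk measurable_id)),
      ← lintegral_const_mul _ ((measurable_marg i hF).indicator hmb)]
    refine lintegral_congr fun b => ?_
    by_cases hb : b ∈ {b : ℝ | 2 * d < |X i - b|}
    · rw [indicator_of_mem hb]
      unfold marg
      have hmm : Measurable fun x' : Fin m → ℝ => F (i.insertNth b x') :=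
        hF.comp ((measurable_insertNth i).comp (measurable_const.prodMk measurable_id))
      rw [← lintegral_const_mul _ hmm]
      refine lintegral_congr fun y' => ?_
      rw [indicator_of_mem]
      simpa using hb
    · rw [indicator_of_notMem hb, mul_zero]
      rw [← lintegral_zero (μ := (volume : Measure (Fin m → ℝ)))]
      refine lintegral_congr fun y' => ?_
      rw [indicator_of_notMem]
      simpa using hb
  simp_rw [e1]
  have hmI : Measurable fun a : ℝ => ∫⁻ b, {b : ℝ | 2 * d < |a - b|}.indicator (marg i F) b := by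
    have : Measurable (Function.uncurry fun (a b : ℝ) =>
        {p : ℝ × ℝ | 2 * d < |p.1 - p.2|}.indicator (fun p => marg i F p.2) (a, b)) :=
      ((measurable_marg i hF).comp measurable_snd).indicator
        (measurableSet_lt measurable_const (by fun_prop))
    exact this.lintegral_prod_right'
  rw [lintegral_insertNth i (F := fun X => F X *
    ∫⁻ b, {b : ℝ | 2 * d < |X i - b|}.indicator (marg i F) b)
    (hF.mul (hmI.comp (measurable_pi_apply i)))]
  refine lintegral_congr fun a => ?_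
  have e2 : ∀ x' : Fin m → ℝ, F (i.insertNth a x') * ∫⁻ b,
      {b : ℝ | 2 * d < |(i.insertNth a x' : Fin (m + 1) → ℝ) i - b|}.indicator (marg i F) b =
      F (i.insertNth a x') * ∫⁻ b, {b : ℝ | 2 * d < |a - b|}.indicator (marg i F) b := by
    intro x'
    rw [Fin.insertNth_apply_same]
  have hmb : MeasurableSet {b : ℝ | 2 * d < |a - b|} :=
    measurableSet_lt measurable_const (by fun_prop)
  simp_rw [e2]
  have hmm : Measurable fun x' : Fin m → ℝ => F (i.insertNth a x') :=
    hF.comp ((measurable_insertNth i).comp (measurable_const.prodMk measurable_id))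
  have e3 : ∫⁻ x' : Fin m → ℝ, F (i.insertNth a x') *
      ∫⁻ b, {b : ℝ | 2 * d < |a - b|}.indicator (marg i F) b =
      marg i F a * ∫⁻ b, {b : ℝ | 2 * d < |a - b|}.indicator (marg i F) b :=
    lintegral_mul_const _ hmm
  rw [e3, ← lintegral_const_mul _ ((measurable_marg i hF).indicator hmb)]
  refine lintegral_congr fun b => ?_
  by_cases hb : b ∈ {b : ℝ | 2 * d < |a - b|}
  · rw [indicator_of_mem hb, indicator_of_mem (show (a, b) ∈ {p : ℝ × ℝ | 2 * d < |p.1 - p.2|} from hb)]
  · rw [indicator_of_notMem hb,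
      indicator_of_notMem (show (a, b) ∉ {p : ℝ × ℝ | 2 * d < |p.1 - p.2|} from hb), mul_zero]

end Pool.Agent.Lib.MP_2d002d_gt.PM.H72
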